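import Pool.Agent.Lib.MP_226ef1_lc.U.IfaceM

/-!
# Modules CLSNET and NETCLS: closed legal structures and networks
-/

set_option autoImplicit false

namespace Pool.Agent.Lib.MP_226ef1_lc.U.H42

open Pool.Agent.Lib.MP_226ef1_lc.U

theorem t11_mk (a b c d : ℕ) : t11 (mkTy a b c d) = a := by simp [t11, mkTy]
theorem t12_mk (a b c d : ℕ) : t12 (mkTy a b c d) = b := by simp [t12, mkTy]
theorem t21_mk (a b c d : ℕ) : t21 (mkTy a b c d) = c := by simp [t21, mkTy]
theorem t22_mk (a b c d : ℕ) : t22 (mkTy a b c d) = d := by simp [t22, mkTy]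

theorem inJ_iff {qs qh : ℕ} {R : List (ℕ × ℕ × ℕ)} {k : ℕ} :
    (tsR qs qh R).inJ k = true ↔ inTy R.length k := by
  simp only [tsR, decide_eq_true_eq]

theorem succ_iff {qs qh : ℕ} {R : List (ℕ × ℕ × ℕ)} {k : ℕ} :
    (tsR qs qh R).succ k = true ↔ es (t12 k) = 1 := by
  simp only [tsR, decide_eq_true_eq]

theorem legal_iff {qs qh : ℕ} {R : List (ℕ × ℕ × ℕ)} {a b c : ℕ} :
    (tsR qs qh R).legal a b c = true ↔ legalP R qs qh a b c := by
  simp only [tsR, decide_eq_true_eq]

theorem star_eq {qs qh : ℕ} {R : List (ℕ × ℕ × ℕ)} {k : ℕ} :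
    (tsR qs qh R).star k = mkTy (t22 k) (t21 k) (t12 k) (t11 k) := rfl

/-- three points as a function on numbers -/
def pnt {V : Type} (a b c : V) (i : ℕ) : V := if i = 0 then a else if i = 1 then b else c

theorem netcls : NetClsStatement := by
  intro qs qh R m D hm hD hes
  refine ⟨fun x y => mkTy (D x x) (D x y) (D y x) (D y y), ?_, ?_⟩
  · constructor
    · intro x y hxy
      rw [inJ_iff]
      unfold inTy
      rw [t11_mk, t12_mk, t21_mk, t22_mk]
      exact ⟨hD.mem _ _, hD.mem _ _, hD.mem _ _, hD.mem _ _, (hD.eq x x).2 rfl, (hD.eq y y).2 rfl,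
        fun h => hxy ((hD.eq x y).1 h), fun h => hxy ((hD.eq y x).1 h).symm, hD.nb x y hxy⟩
    · intro x y _
      rw [star_eq, t11_mk, t12_mk, t21_mk, t22_mk]
    · intro x y z _ _ _
      rw [legal_iff]
      unfold legalP
      refine ⟨by rw [t22_mk, t11_mk], by rw [t22_mk, t11_mk], by rw [t22_mk, t11_mk], ?_⟩
      have key : ∀ i < 3, ∀ j < 3, mat (mkTy (D x x) (D x y) (D y x) (D y y))
          (mkTy (D y y) (D y z) (D z y) (D z z)) (mkTy (D z z) (D z x) (D x z) (D x x)) i j =
          D (pnt x y z i) (pnt x y z j) := by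
        intro i hi j hj
        interval_cases i <;> interval_cases j <;>
          simp [mat, pnt, t11_mk, t12_mk, t21_mk, t22_mk]
      intro i hi j hj k hk
      rw [key i hi j hj, key j hj k hk, key i hi k hk]
      exact hD.kp _ _ _
    · intro x
      obtain ⟨y, hy, hxy⟩ := hD.sc x
      refine ⟨y, hy, ?_⟩
      rw [succ_iff, t12_mk]
      exact hxy
  · intro X hX hX'
    by_contra hcon
    push Not at hcon
    apply hX'
    obtain ⟨x₀, hx₀⟩ := hX
    have hstep : ∀ x ∈ X, ∀ y : Fin m, y.val = (x.val + 1) % m → y ∈ X := by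
      intro x hx y hy
      obtain ⟨y', hy', _, hs⟩ := hcon x hx
      have hs' : es (D x y') = 1 := by
        have h := succ_iff.1 (Bool.eq_true_of_not_eq_false hs)
        rw [t12_mk] at h
        exact h
      have h2 := (hes x y').1 hs'
      have h3 : y' = y := Fin.ext (by rw [h2, hy])
      rw [← h3]
      exact hy'
    have hall : ∀ k : ℕ, ∀ y : Fin m, y.val = (x₀.val + k) % m → y ∈ X := by
      intro k
      induction k with
      | zero =>
        intro y hy
        have : y = x₀ := Fin.ext (by rw [hy, Nat.add_zero, Nat.mod_eq_of_lt x₀.2])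
        rw [this]
        exact hx₀
      | succ k ih =>
        intro y hy
        have hm0 : 0 < m := by omega
        refine hstep ⟨(x₀.val + k) % m, Nat.mod_lt _ hm0⟩ (ih _ rfl) y ?_
        rw [hy]
        simp only
        rw [Nat.mod_add_mod, Nat.add_assoc]
    refine Set.eq_univ_of_forall fun y => ?_
    refine hall (m - x₀.val + y.val) y ?_
    have h1 := x₀.2
    have h2 := y.2
    rw [show x₀.val + (m - x₀.val + y.val) = y.val + m by omega, Nat.add_mod_right,
      Nat.mod_eq_of_lt h2]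

theorem clsnet : ClsNetStatement := by
  intro qs qh R m ty hm h
  have hmem : ∀ x y, x ≠ y → inTy R.length (ty x y) := fun x y hxy =>
    inJ_iff.1 (h.mem x y hxy)
  have hstar : ∀ x y, x ≠ y → ty y x = mkTy (t22 (ty x y)) (t21 (ty x y)) (t12 (ty x y))
      (t11 (ty x y)) := fun x y hxy => (h.star x y hxy).trans star_eq
  have hlegal : ∀ x y z, x ≠ y → y ≠ z → z ≠ x → legalP R qs qh (ty x y) (ty y z) (ty z x) :=
    fun x y z h1 h2 h3 => legal_iff.1 (h.legal x y z h1 h2 h3)
  have hsucc : ∀ x, ∃ y, y ≠ x ∧ es (t12 (ty x y)) = 1 := by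
    intro x
    obtain ⟨y, hy, hxy⟩ := h.succ x
    exact ⟨y, hy, succ_iff.1 hxy⟩
  choose s hs hs' using hsucc
  have h12 : ∀ x y, x ≠ y → t12 (ty y x) = t21 (ty x y) := fun x y hxy => by
    rw [hstar x y hxy, t12_mk]
  have h21 : ∀ x y, x ≠ y → t21 (ty y x) = t12 (ty x y) := fun x y hxy => by
    rw [hstar x y hxy, t21_mk]
  have h22 : ∀ x y, x ≠ y → t22 (ty y x) = t11 (ty x y) := fun x y hxy => by
    rw [hstar x y hxy, t22_mk]
  have hwd : ∀ x y y', x ≠ y → x ≠ y' → t11 (ty x y) = t11 (ty x y') := by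
    intro x y y' h1 h2
    by_cases h3 : y = y'
    · rw [h3]
    · have h4 := (hlegal x y y' h1 h3 h2.symm).2.2.1
      rw [← h4, h22 x y' h2]
  have hcard : 3 ≤ Fintype.card (Fin m) := by
    let x : Fin m := ⟨0, hm⟩
    have h1 : s x ≠ x := hs x
    have h2 : s (s x) ≠ s x := hs (s x)
    have h3 : s (s x) ≠ x := by
      intro h4
      have h5 := (hmem x (s x) h1.symm).2.2.2.2.2.2.2.2
      apply h5
      refine ⟨hs' x, ?_⟩
      rw [← h12 x (s x) h1.symm]
      have h6 := hs' (s x)
      rw [h4] at h6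
      exact h6
    have h4 : ({x, s x, s (s x)} : Finset (Fin m)).card = 3 := by
      rw [Finset.card_eq_three]
      exact ⟨x, s x, s (s x), h1.symm, h3.symm, h2.symm, rfl⟩
    rw [← h4]
    exact Finset.card_le_univ _
  let D : Fin m → Fin m → ℕ := fun x y => if x = y then t11 (ty x (s x)) else t12 (ty x y)
  have hDd : ∀ x y, x ≠ y → D x x = t11 (ty x y) := fun x y hxy => by
    show (if x = x then _ else _) = _
    rw [if_pos rfl]
    exact hwd x (s x) y (hs x).symm hxy
  have hDn : ∀ x y, x ≠ y → D x y = t12 (ty x y) := fun x y hxy => by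
    show (if x = y then _ else _) = _
    rw [if_neg hxy]
  have hpts : ∀ x y z : Fin m, ∃ a b c : Fin m, a ≠ b ∧ a ≠ c ∧ b ≠ c ∧
      ∃ i < 3, ∃ j < 3, ∃ k < 3, x = pnt a b c i ∧ y = pnt a b c j ∧ z = pnt a b c k := by
    intro x y z
    have h1 : ({x, y, z} : Finset (Fin m)).card ≤ 3 := Finset.card_le_three
    obtain ⟨t, ht, ht3⟩ := Finset.exists_superset_card_eq h1 hcard
    obtain ⟨a, b, c, hab, hac, hbc, rfl⟩ := Finset.card_eq_three.1 ht3
    have hex : ∀ u ∈ ({a, b, c} : Finset (Fin m)), ∃ i < 3, u = pnt a b c i := by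
      intro u hu
      simp only [Finset.mem_insert, Finset.mem_singleton] at hu
      rcases hu with rfl | rfl | rfl
      · exact ⟨0, by omega, rfl⟩
      · exact ⟨1, by omega, rfl⟩
      · exact ⟨2, by omega, rfl⟩
    obtain ⟨i, hi, hxi⟩ := hex x (ht (by simp))
    obtain ⟨j, hj, hyj⟩ := hex y (ht (by simp))
    obtain ⟨k, hk, hzk⟩ := hex z (ht (by simp))
    exact ⟨a, b, c, hab, hac, hbc, i, hi, j, hj, k, hk, hxi, hyj, hzk⟩
  refine ⟨D, ?_⟩
  constructor
  · intro x y
    by_cases hxy : x = y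
    · subst hxy
      rw [hDd x (s x) (hs x).symm]
      exact (hmem x (s x) (hs x).symm).1
    · rw [hDn x y hxy]
      exact (hmem x y hxy).2.1
  · intro x y
    constructor
    · intro he
      by_contra hxy
      rw [hDn x y hxy] at he
      exact (hmem x y hxy).2.2.2.2.2.2.1 he
    · intro hxy
      subst hxy
      rw [hDd x (s x) (hs x).symm]
      exact (hmem x (s x) (hs x).symm).2.2.2.2.1
  · intro x y hxy
    rw [hDn x y hxy, hDn y x (Ne.symm hxy), h12 x y hxy]
    exact (hmem x y hxy).2.2.2.2.2.2.2.2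
  · intro x y z
    obtain ⟨a, b, c, hab, hac, hbc, i, hi, j, hj, k, hk, rfl, rfl, rfl⟩ := hpts x y z
    have key : ∀ i < 3, ∀ j < 3, mat (ty a b) (ty b c) (ty c a) i j =
        D (pnt a b c i) (pnt a b c j) := by
      intro i hi j hj
      interval_cases i <;> interval_cases j
      · exact (hDd a b hab).symm
      · exact (hDn a b hab).symm
      · show t21 (ty c a) = D a c
        rw [hDn a c hac, h21 a c hac]
      · show t21 (ty a b) = D b a
        rw [hDn b a hab.symm, h12 a b hab]
      · show t22 (ty a b) = D b b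
        rw [hDd b a hab.symm, h22 b a hab.symm]
      · exact (hDn b c hbc).symm
      · exact (hDn c a hac.symm).symm
      · show t21 (ty b c) = D c b
        rw [hDn c b hbc.symm, h12 b c hbc]
      · show t22 (ty b c) = D c c
        rw [hDd c b hbc.symm, h22 c b hbc.symm]
    have hl := (hlegal a b c hab hbc hac.symm).2.2.2 i hi j hj k hk
    rw [key i hi j hj, key j hj k hk, key i hi k hk] at hl
    exact hl
  · intro x
    refine ⟨s x, hs x, ?_⟩
    rw [hDn x (s x) (hs x).symm]
    exact hs' x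

end Pool.Agent.Lib.MP_226ef1_lc.U.H42
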