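import Pool.Agent.Lib.MP_226ef1_lc.U.IfaceC

/-!
# Module TAB: the multiplication table of a template semigroup
-/

set_option autoImplicit false

namespace Pool.Agent.Lib.MP_226ef1_lc.U.H42

open Pool.Agent.Lib.MP_226ef1_lc.U

theorem mem_allWords (cb : ℕ) : ∀ (n : ℕ) (w : List ℕ),
    w ∈ allWords cb n ↔ w.length ≤ n ∧ ∀ c ∈ w, c < cb := by
  intro n
  induction n with
  | zero =>
    intro w
    rw [allWords, List.mem_singleton]
    constructor
    · rintro rfl
      simp
    · rintro ⟨h, _⟩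
      exact List.length_eq_zero_iff.1 (by omega)
  | succ n ih =>
    intro w
    rw [allWords, List.mem_cons, List.mem_flatMap]
    constructor
    · rintro (rfl | ⟨v, hv, hw⟩)
      · simp
      · rw [List.mem_map] at hw
        obtain ⟨c, hc, rfl⟩ := hw
        rw [List.mem_range] at hc
        obtain ⟨h1, h2⟩ := (ih v).1 hv
        refine ⟨by rw [List.length_cons]; omega, fun d hd => ?_⟩
        rcases List.mem_cons.1 hd with rfl | hd
        · exact hc
        · exact h2 d hd
    · rintro ⟨h1, h2⟩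
      rcases w with _ | ⟨c, v⟩
      · exact Or.inl rfl
      · refine Or.inr ⟨v, (ih v).2 ⟨by rw [List.length_cons] at h1; omega,
          fun d hd => h2 d (List.mem_cons_of_mem _ hd)⟩, ?_⟩
        rw [List.mem_map]
        exact ⟨c, List.mem_range.2 (h2 c List.mem_cons_self), rfl⟩

theorem nodup_allWords (cb : ℕ) : ∀ n : ℕ, (allWords cb n).Nodup := by
  intro n
  induction n with
  | zero => rw [allWords]; exact List.nodup_singleton _
  | succ n ih =>
    rw [allWords, List.nodup_cons]
    constructor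
    · rw [List.mem_flatMap]
      rintro ⟨v, _, hv⟩
      rw [List.mem_map] at hv
      obtain ⟨c, _, hc⟩ := hv
      exact List.cons_ne_nil _ _ hc
    · rw [List.nodup_flatMap]
      refine ⟨fun v _ => List.nodup_range.map fun a b hab => (List.cons.inj hab).1, ?_⟩
      refine ih.imp_of_mem ?_
      intro a b _ _ hab
      rw [Function.onFun, List.disjoint_left]
      intro x hx hx'
      rw [List.mem_map] at hx hx'
      obtain ⟨c, _, rfl⟩ := hx
      obtain ⟨c', _, h⟩ := hx'
      exact hab (List.cons.inj h).2.symm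

section
variable {τ : Tm}

theorem nf_bounds (hτ : τ.WF) {cb : ℕ} (h3 : 3 ≤ cb) (hcb : ∀ c, τ.cols c → c < cb)
    {w : List ℕ} (hw : τ.nf w = w) : w.length ≤ τ.len ∧ ∀ c ∈ w, c < cb := by
  have hlen := hτ.len_ge
  by_cases h0 : 0 ∈ w
  · rw [Tm.nf_zero h0] at hw
    rw [← hw]
    refine ⟨by rw [List.length_singleton]; omega, fun c hc => ?_⟩
    rw [List.mem_singleton.1 hc]
    omega
  · by_cases hF : τ.Free w
    · exact ⟨hF.2.1, fun c hc => hcb c (hF.2.2.1 c hc)⟩
    · rw [Tm.nf_long h0 hF] at hw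
      have hsd : (τ.sd w).length ≤ 5 :=
        (List.length_filter_le _ _).trans hτ.seeds_le
      have key : ((2 - (w.sum + (τ.sd w).sum) % 2) :: τ.sd w).length ≤ τ.len ∧
          ∀ c ∈ (2 - (w.sum + (τ.sd w).sum) % 2) :: τ.sd w, c < cb := by
        refine ⟨by rw [List.length_cons]; omega, fun c hc => ?_⟩
        rcases List.mem_cons.1 hc with rfl | hc
        · omega
        · exact hcb c (hτ.seeds_cols c (Tm.mem_sd.1 hc).1)
      rw [hw] at key
      exact key

theorem mem_elts (hτ : τ.WF) {cb : ℕ} (h3 : 3 ≤ cb) (hcb : ∀ c, τ.cols c → c < cb)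
    (w : List ℕ) : w ∈ τ.elts cb ↔ w ≠ [] ∧ τ.nf w = w := by
  rw [Tm.elts, List.mem_filter, decide_eq_true_eq, mem_allWords]
  constructor
  · rintro ⟨_, h⟩
    exact h
  · intro h
    exact ⟨nf_bounds hτ h3 hcb h.2, h⟩

theorem nodup_elts (cb : ℕ) : (τ.elts cb).Nodup := (nodup_allWords cb τ.len).filter _

theorem length_tab (cb : ℕ) : (τ.tab cb).length = (τ.elts cb).length := by
  rw [Tm.tab, List.length_map]

theorem entry_eq (cb : ℕ) {i j : ℕ} (hi : i < (τ.elts cb).length) (hj : j < (τ.elts cb).length) :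
    (τ.tab cb).entry i j =
      (τ.elts cb).idxOf (τ.nf ((τ.elts cb).getD i [] ++ (τ.elts cb).getD j [])) := by
  rw [Table.entry, Tm.tab]
  simp only [List.getD_eq_getElem?_getD, List.getElem?_map, List.getElem?_eq_getElem hi,
    List.getElem?_eq_getElem hj, Option.map_some, Option.getD_some]

theorem getD_mem (cb : ℕ) {i : ℕ} (hi : i < (τ.elts cb).length) :
    (τ.elts cb).getD i [] ∈ τ.elts cb := by
  rw [List.getD_eq_getElem _ _ hi]
  exact List.getElem_mem hi

theorem getD_idxOf (cb : ℕ) {w : List ℕ} (hw : w ∈ τ.elts cb) :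
    (τ.elts cb).getD ((τ.elts cb).idxOf w) [] = w := by
  rw [List.getD_eq_getElem _ _ (List.idxOf_lt_length_iff.2 hw)]
  exact List.getElem_idxOf _

theorem getD_inj (cb : ℕ) {i j : ℕ} (hi : i < (τ.elts cb).length) (hj : j < (τ.elts cb).length)
    (h : (τ.elts cb).getD i [] = (τ.elts cb).getD j []) : i = j := by
  rw [List.getD_eq_getElem _ _ hi, List.getD_eq_getElem _ _ hj] at h
  exact (nodup_elts cb).getElem_inj_iff.1 h

end

theorem tab (hNF : NfStatement) : TabStatement := by
  intro τ hτ cb h3 hcb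
  obtain ⟨nf1, nf2, nf3⟩ := hNF τ hτ
  have hmem := mem_elts hτ h3 hcb
  have hnf : ∀ w : List ℕ, w ≠ [] → τ.nf w ∈ τ.elts cb := fun w hw =>
    (hmem _).2 ⟨(nf3 w hw).2, (nf3 w hw).1⟩
  have hne : ∀ i, i < (τ.elts cb).length → (τ.elts cb).getD i [] ≠ [] := fun i hi =>
    ((hmem _).1 (getD_mem cb hi)).1
  have happ : ∀ i j, i < (τ.elts cb).length → j < (τ.elts cb).length →
      (τ.elts cb).getD i [] ++ (τ.elts cb).getD j [] ≠ [] := fun i j hi _ h =>
    hne i hi (List.append_eq_nil_iff.1 h).1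
  have hlt : ∀ i j, i < (τ.elts cb).length → j < (τ.elts cb).length →
      (τ.tab cb).entry i j < (τ.elts cb).length := by
    intro i j hi hj
    rw [entry_eq cb hi hj]
    exact List.idxOf_lt_length_iff.2 (hnf _ (happ i j hi hj))
  have hval : ∀ i j, i < (τ.elts cb).length → j < (τ.elts cb).length →
      (τ.elts cb).getD ((τ.tab cb).entry i j) [] =
        τ.nf ((τ.elts cb).getD i [] ++ (τ.elts cb).getD j []) := by
    intro i j hi hj
    rw [entry_eq cb hi hj]
    exact getD_idxOf cb (hnf _ (happ i j hi hj))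
  refine ⟨nodup_elts cb, hmem, ?_, length_tab cb, hval⟩
  constructor
  · intro h
    have h0 : [0] ∈ τ.elts cb :=
      (hmem _).2 ⟨List.cons_ne_nil _ _, Tm.nf_zero List.mem_cons_self⟩
    have h1 : (τ.elts cb).length = 0 := by
      rw [← length_tab, h, List.length_nil]
    rw [List.length_eq_zero_iff.1 h1] at h0
    exact List.not_mem_nil h0
  · intro r hr
    rw [Tm.tab, List.mem_map] at hr
    obtain ⟨x, _, rfl⟩ := hr
    rw [List.length_map, length_tab]
  · intro i j hi hj
    rw [length_tab] at hi hj ⊢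
    exact hlt i j hi hj
  · intro i j k hi hj hk
    rw [length_tab] at hi hj hk
    have hij := hlt i j hi hj
    have hjk := hlt j k hj hk
    refine getD_inj cb (hlt _ _ hij hk) (hlt _ _ hi hjk) ?_
    rw [hval _ _ hij hk, hval _ _ hi hjk, hval i j hi hj, hval j k hj hk,
      nf1 _ _ (happ i j hi hj), nf2 _ _ (happ j k hj hk), List.append_assoc]

end Pool.Agent.Lib.MP_226ef1_lc.U.H42
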